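import Pool.Agent.Helper65.BQ.St

/-! Module PFS of project BQ (MP_ee405c_gt). -/

set_option autoImplicit false

open Set Topology TopologicalSpace

namespace Pool.Agent.Helper33.BQ

open Pool.Agent.Helper9.SID Pool.Agent.Helper65.BQ

section
variable {K : Type} [TopologicalSpace K]

/-- Level sets are partitions. -/
theorem par_level_PFS {g : K → ℝ} (hg : Continuous g) {r : ℝ} (h0 : 0 < r) (h1 : r < 1) :
    Par g {x | g x = r} := by
  have h := IsPartition.of_open (A := lo g) (B := hi g) (U := {x | g x < r}) (V := {x | r < g x})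
    (isOpen_lt hg continuous_const) (isOpen_lt continuous_const hg)
    (by
      rw [Set.disjoint_left]
      intro y h1 h2
      exact lt_asymm (a := g y) h1 h2)
    (fun x hx => lt_of_le_of_lt (show g x ≤ 0 from hx) h0)
    (fun x hx => lt_of_lt_of_le h1 (show 1 ≤ g x from hx))
  have e : {x | g x = r} = ({x | g x < r} ∪ {x | r < g x})ᶜ := by
    ext x
    simp only [mem_ofPred_eq, mem_compl_iff, mem_union, not_or, not_lt]
    exact ⟨fun h => ⟨h.ge, h.le⟩, fun h => le_antisymm h.2 h.1⟩
  unfold Par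
  rw [e]
  exact h

/-- Closed set of a finite sequence. -/
def GG (C : ℕ → ℕ → Set K) : List ℕ → Set K
  | [] => univ
  | a :: p => GG C p ∩ C p.length a

/-- Indices of a finite sequence. -/
def KP (κ : ℕ → ℕ) : List ℕ → ℕ → ℕ
  | [] => κ
  | a :: p => fun i => KP κ p (Nat.pair (a + 1) i)

theorem GG_closed {C : ℕ → ℕ → Set K} (hC : ∀ m a, IsClosed (C m a)) :
    ∀ p, IsClosed (GG C p)
  | [] => isClosed_univ
  | a :: p => (GG_closed hC p).inter (hC p.length a)

end

/-- Greedy path. -/
noncomputable def gpath (E : List ℕ → Set (ℕ → Bool)) (c : ℕ → Bool) : ℕ → List ℕ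
  | 0 => []
  | m + 1 => sInf {a | c ∈ E (a :: gpath E c m)} :: gpath E c m

theorem gpath_length (E : List ℕ → Set (ℕ → Bool)) (c : ℕ → Bool) :
    ∀ m, (gpath E c m).length = m
  | 0 => rfl
  | m + 1 => by
    show (gpath E c m).length + 1 = m + 1
    rw [gpath_length E c m]

theorem gpath_mem {E : List ℕ → Set (ℕ → Bool)} {c : ℕ → Bool} (h0 : c ∈ E [])
    (hs : ∀ p, c ∈ E p → ∃ a, c ∈ E (a :: p)) : ∀ m, c ∈ E (gpath E c m)
  | 0 => h0
  | m + 1 => Nat.sInf_mem (hs _ (gpath_mem h0 hs m))

theorem gpath_nice {E : List ℕ → Set (ℕ → Bool)} (hE : ∀ c m, c ∈ E (gpath E c m))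
    (N : Set (ℕ → Bool) → Prop) (h1 : N univ) (h2 : ∀ V W, N V → N W → N (V ∩ W))
    (h3 : ∀ W, N W → N Wᶜ) (h4 : ∀ p, N (E p)) :
    ∀ p : List ℕ, N {c | gpath E c p.length = p}
  | [] => by
    have : {c | gpath E c ([] : List ℕ).length = []} = univ := by
      ext c
      simp only [mem_ofPred_eq, mem_univ, iff_true]
      rfl
    rw [this]
    exact h1
  | a :: p => by
    have hlt : ∀ b : ℕ, N {c | ∀ a' < b, c ∉ E (a' :: p)} := by
      intro b
      induction b with
      | zero =>
        have : {c | ∀ a' < 0, c ∉ E (a' :: p)} = univ := by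
          ext c; simp
        rw [this]
        exact h1
      | succ b ih =>
        have : {c | ∀ a' < b + 1, c ∉ E (a' :: p)} =
            {c | ∀ a' < b, c ∉ E (a' :: p)} ∩ (E (b :: p))ᶜ := by
          ext c
          simp only [mem_ofPred_eq, mem_inter_iff, mem_compl_iff]
          constructor
          · intro h
            exact ⟨fun a' ha' => h a' (by omega), h b (by omega)⟩
          · rintro ⟨h, h'⟩ a' ha'
            rcases Nat.lt_succ_iff_lt_or_eq.mp ha' with h5 | h5
            · exact h a' h5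
            · rw [h5]; exact h'
        rw [this]
        exact h2 _ _ ih (h3 _ (h4 _))
    have e : {c | gpath E c (a :: p).length = a :: p} =
        ({c | gpath E c p.length = p} ∩ E (a :: p)) ∩ {c | ∀ a' < a, c ∉ E (a' :: p)} := by
      ext c
      have hg : gpath E c (a :: p).length =
        sInf {a | c ∈ E (a :: gpath E c p.length)} :: gpath E c p.length := rfl
      simp only [mem_ofPred_eq, mem_inter_iff]
      constructor
      · intro h
        have h5 := h
        rw [hg, List.cons.injEq] at h5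
        obtain ⟨h6, h7⟩ := h5
        have h8 := hE c (a :: p).length
        rw [h] at h8
        refine ⟨⟨h7, h8⟩, fun a' ha' hc => ?_⟩
        rw [h7] at h6
        have h9 : sInf {a | c ∈ E (a :: p)} ≤ a' := Nat.sInf_le hc
        omega
      · rintro ⟨⟨h5, h6⟩, h7⟩
        rw [hg, List.cons.injEq]
        refine ⟨?_, h5⟩
        rw [h5]
        refine le_antisymm (Nat.sInf_le h6) ?_
        by_contra hlt'
        push Not at hlt'
        have h8 : sInf {a | c ∈ E (a :: p)} ∈ {a | c ∈ E (a :: p)} := Nat.sInf_mem ⟨a, h6⟩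
        exact h7 _ hlt' h8
    rw [e]
    exact h2 _ _ (h2 _ _ (gpath_nice hE N h1 h2 h3 h4 p) (h4 _)) (hlt a)

theorem pPFS (hSPW : StSPW) (_hCPT : StCPT) : StPFS := by
  intro K _ _ _ f hf hbig X Fs hFs hX hmeet
  let _ := metrizableSpaceMetric K
  obtain ⟨-, κ, hκ⟩ := hbig
  have hcont := hf.cont
  -- the essential family and the codes
  let F : EssFam K :=
    { A := fun i => lo (f (κ (2 * i + 1)))
      B := fun i => hi (f (κ (2 * i + 1)))
      NA := fun i => {x | f (κ (2 * i + 1)) x < 1 / 4}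
      NB := fun i => {x | 3 / 4 < f (κ (2 * i + 1)) x}
      hA := fun i x hx => by
        have : f (κ (2 * i + 1)) x ≤ 0 := hx
        show f (κ (2 * i + 1)) x < 1 / 4
        linarith
      hB := fun i x hx => by
        have : 1 ≤ f (κ (2 * i + 1)) x := hx
        show 3 / 4 < f (κ (2 * i + 1)) x
        linarith
      oA := fun i => isOpen_lt (hcont _) continuous_const
      oB := fun i => isOpen_lt continuous_const (hcont _)
      disj := fun i => by
        have h1 : closure {x | f (κ (2 * i + 1)) x < 1 / 4} ⊆ {x | f (κ (2 * i + 1)) x ≤ 1 / 4} :=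
          closure_minimal (fun x hx => le_of_lt (a := f (κ (2 * i + 1)) x) hx)
            (isClosed_le (hcont _) continuous_const)
        have h2 : closure {x | 3 / 4 < f (κ (2 * i + 1)) x} ⊆ {x | 3 / 4 ≤ f (κ (2 * i + 1)) x} :=
          closure_minimal (fun x hx => le_of_lt (b := f (κ (2 * i + 1)) x) hx)
            (isClosed_le continuous_const (hcont _))
        rw [Set.disjoint_left]
        intro x hx hx'
        have h3 : f (κ (2 * i + 1)) x ≤ 1 / 4 := h1 hx
        have h4 : 3 / 4 ≤ f (κ (2 * i + 1)) x := h2 hx'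
        linarith }
  obtain ⟨Q⟩ := exists_codes F
  set g := f (κ 0) with hg
  have hgc : Continuous g := hcont _
  let κ' : ℕ → ℕ := fun i => κ (2 * i + 2)
  let T : (ℕ → Bool) → Set K := fun c => {x | g x = jj c ∧ Q.On c x}
  -- the closed relation
  have hTcl : IsClosed {q : (ℕ → Bool) × K | q.2 ∈ T q.1} := by
    have e : {q : (ℕ → Bool) × K | q.2 ∈ T q.1} =
        {q : (ℕ → Bool) × K | g q.2 = jj q.1} ∩ ⋂ k, ((Q.U k)ᶜ ∩ (Q.V k)ᶜ) := by
      ext q
      simp only [T, Codes.On, mem_ofPred_eq, mem_inter_iff, mem_iInter, mem_compl_iff]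
    rw [e]
    refine IsClosed.inter (isClosed_eq (hgc.comp continuous_snd) (jj_cont.comp continuous_fst)) ?_
    exact isClosed_iInter fun k => (Q.oU k).isClosed_compl.inter (Q.oV k).isClosed_compl
  have hTc : ∀ c, IsClosed (T c) := by
    intro c
    have : Continuous fun x : K => (c, x) := by fun_prop
    exact hTcl.preimage this
  have hTess : ∀ c, Ess f κ' (T c) := by
    intro c L hL
    have hpar : ∀ m, Par (f (κ m)) (if m = 0 then {x | g x = jj c} else
        if m % 2 = 1 then Q.part c (m / 2) else L (m / 2 - 1)) := by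
      intro m
      by_cases h0 : m = 0
      · rw [if_pos h0, h0]
        exact par_level_PFS hgc (jj_pos c) (jj_lt c)
      · rw [if_neg h0]
        by_cases h1 : m % 2 = 1
        · rw [if_pos h1]
          have h2 := Q.part_isPartition c (m / 2)
          have h3 : 2 * (m / 2) + 1 = m := by omega
          have h4 : F.A (m / 2) = lo (f (κ m)) := by
            show lo (f (κ (2 * (m / 2) + 1))) = lo (f (κ m))
            rw [h3]
          have h5 : F.B (m / 2) = hi (f (κ m)) := by
            show hi (f (κ (2 * (m / 2) + 1))) = hi (f (κ m))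
            rw [h3]
          rw [h4, h5] at h2
          exact h2
        · rw [if_neg h1]
          have h2 := hL (m / 2 - 1)
          have h3 : 2 * (m / 2 - 1) + 2 = m := by omega
          have h4 : κ' (m / 2 - 1) = κ m := by
            show κ (2 * (m / 2 - 1) + 2) = κ m
            rw [h3]
          rw [h4] at h2
          exact h2
    obtain ⟨x, -, hx⟩ := hκ _ hpar
    rw [mem_iInter] at hx
    refine ⟨x, ⟨?_, fun k => ?_⟩, mem_iInter.mpr fun i => ?_⟩
    · have := hx 0
      rw [if_pos rfl] at this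
      exact this
    · have := hx (2 * k + 1)
      rw [if_neg (by omega), if_pos (by omega), show (2 * k + 1) / 2 = k by omega] at this
      exact this
    · have := hx (2 * i + 2)
      rw [if_neg (by omega), if_neg (by omega), show (2 * i + 2) / 2 - 1 = i by omega] at this
      exact this
  -- cells
  have hne : Nonempty K := by
    have := hTess (fun _ => false) (fun i => {x | f (κ' i) x = 1 / 2})
      (fun i => par_level_PFS (hcont _) (by norm_num) (by norm_num))
    obtain ⟨x, -⟩ := this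
    exact ⟨x⟩
  let D : ℕ → ℕ → Set K := fun m l => Metric.closedBall (denseSeq K l) (1 / (2 * ((m : ℝ) + 1)))
  have hDc : ∀ m l, IsClosed (D m l) := fun m l => Metric.isClosed_closedBall
  have hDcov : ∀ m x, ∃ l, x ∈ D m l := by
    intro m x
    have hpos : (0 : ℝ) < 1 / (2 * ((m : ℝ) + 1)) := by positivity
    obtain ⟨l, hl⟩ := (denseRange_denseSeq K).exists_dist_lt x hpos
    exact ⟨l, hl.le⟩
  have hDd : ∀ m l x y, x ∈ D m l → y ∈ D m l → dist x y ≤ 1 / ((m : ℝ) + 1) := by
    intro m l x y hx hy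
    have h1 : dist x (denseSeq K l) ≤ 1 / (2 * ((m : ℝ) + 1)) := hx
    have h2 : dist y (denseSeq K l) ≤ 1 / (2 * ((m : ℝ) + 1)) := hy
    have h3 : (1 : ℝ) / (2 * ((m : ℝ) + 1)) + 1 / (2 * ((m : ℝ) + 1)) = 1 / ((m : ℝ) + 1) := by
      have : (m : ℝ) + 1 ≠ 0 := by positivity
      field_simp
      norm_num
    have h4 := dist_triangle_right x y (denseSeq K l)
    linarith
  let C : ℕ → ℕ → Set K := fun m a => Fs m (Nat.unpair a).1 ∩ D m (Nat.unpair a).2
  have hCc : ∀ m a, IsClosed (C m a) := fun m a => (hFs _ _).inter (hDc _ _)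
  let E : List ℕ → Set (ℕ → Bool) := fun p => {c | Ess f (KP κ' p) (T c ∩ GG C p)}
  have hEcl : ∀ p, IsClosed (E p) := by
    intro p
    have e : E p = ⋂ L : {L : ℕ → Set K // ∀ i, Par (f (KP κ' p i)) (L i)},
        Prod.fst '' ({q : (ℕ → Bool) × K | q.2 ∈ T q.1} ∩
          {q : (ℕ → Bool) × K | q.2 ∈ GG C p ∩ ⋂ i, L.1 i}) := by
      ext c
      simp only [E, Ess, mem_ofPred_eq, mem_iInter, Subtype.forall]
      constructor
      · intro h L hL
        obtain ⟨x, ⟨h1, h2⟩, h3⟩ := h L hL
        exact ⟨(c, x), ⟨h1, h2, h3⟩, rfl⟩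
      · intro h L hL
        obtain ⟨⟨c', x⟩, ⟨h1, h2, h3⟩, rfl⟩ := h L hL
        exact ⟨x, ⟨h1, h2⟩, h3⟩
    rw [e]
    refine isClosed_iInter fun L => isClosedMap_fst_of_compactSpace _ (hTcl.inter ?_)
    refine IsClosed.preimage continuous_snd ((GG_closed hCc p).inter ?_)
    exact isClosed_iInter fun i => (L.2 i).1
  have hE0 : ∀ c, c ∈ E [] := by
    intro c
    show Ess f κ' (T c ∩ univ)
    rw [inter_univ]
    exact hTess c
  have hEs : ∀ c p, c ∈ E p → ∃ a, c ∈ E (a :: p) := by
    intro c p hp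
    by_contra hno
    push Not at hno
    have hp' : Ess f (KP κ' p) (T c ∩ GG C p) := hp
    obtain ⟨S, -, hS2, hS3, hS4⟩ := hSPW K f (KP κ' p) (T c ∩ GG C p) (C p.length)
      ((hTc c).inter (GG_closed hCc p)) hp' (fun a ha => by
        apply hno a
        show Ess f (fun i => KP κ' p (Nat.pair (a + 1) i)) (T c ∩ (GG C p ∩ C p.length a))
        rw [← inter_assoc]
        exact ha)
    obtain ⟨x, hxS, hxX⟩ := hmeet S ⟨hS2, _, hS3⟩
    rw [hX, mem_iInter] at hxX
    obtain ⟨n, hn⟩ := mem_iUnion.mp (hxX p.length)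
    obtain ⟨l, hl⟩ := hDcov p.length x
    have : x ∈ S ∩ C p.length (Nat.pair n l) := by
      refine ⟨hxS, ?_⟩
      show x ∈ Fs p.length (Nat.unpair (Nat.pair n l)).1 ∩ D p.length (Nat.unpair (Nat.pair n l)).2
      rw [Nat.unpair_pair]
      exact ⟨hn, hl⟩
    rw [hS4] at this
    exact this
  have hEm : ∀ c m, c ∈ E (gpath E c m) := fun c m => gpath_mem (hE0 c) (hEs c) m
  -- the set
  let R : Set (ℕ → Bool) → Set K := fun W => {x | ∃ c, x ∈ T c ∧ c ∈ W}
  have huniq : ∀ x c d, x ∈ T c → x ∈ T d → c = d := by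
    intro x c d h1 h2
    exact jj_inj (h1.1.symm.trans h2.1)
  have hRcl : ∀ W, IsClosed W → IsClosed (R W) := by
    intro W hW
    have h1 := isClosedMap_snd_of_compactSpace _ (hTcl.inter (hW.preimage continuous_fst))
    convert h1 using 1
    ext x
    constructor
    · rintro ⟨c, h3, h4⟩
      exact ⟨(c, x), ⟨h3, h4⟩, rfl⟩
    · rintro ⟨⟨c, y⟩, ⟨h3, h4⟩, rfl⟩
      exact ⟨c, h3, h4⟩
  have hRG : ∀ p : List ℕ, IsGδ (R {c | gpath E c p.length = p}) ∧
      IsGδ (R {c | gpath E c p.length = p}ᶜ) := by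
    refine gpath_nice hEm (fun W => IsGδ (R W) ∧ IsGδ (R Wᶜ)) ?_ ?_ ?_ ?_
    · refine ⟨(hRcl _ isClosed_univ).isGδ, ?_⟩
      rw [compl_univ]
      exact (hRcl _ isClosed_empty).isGδ
    · rintro V W ⟨h1, h2⟩ ⟨h3, h4⟩
      constructor
      · have e : R (V ∩ W) = R V ∩ R W := by
          ext x
          constructor
          · rintro ⟨c, h5, h6, h7⟩
            exact ⟨⟨c, h5, h6⟩, ⟨c, h5, h7⟩⟩
          · rintro ⟨⟨c, h5, h6⟩, ⟨d, h7, h8⟩⟩
            have := huniq x c d h5 h7
            subst this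
            exact ⟨c, h5, h6, h8⟩
        rw [e]
        exact h1.inter h3
      · have e : R (V ∩ W)ᶜ = R Vᶜ ∪ R Wᶜ := by
          ext x
          constructor
          · rintro ⟨c, h5, h6⟩
            rw [compl_inter] at h6
            rcases h6 with h6 | h6
            · exact Or.inl ⟨c, h5, h6⟩
            · exact Or.inr ⟨c, h5, h6⟩
          · rintro (⟨c, h5, h6⟩ | ⟨c, h5, h6⟩)
            · exact ⟨c, h5, fun h => h6 h.1⟩
            · exact ⟨c, h5, fun h => h6 h.2⟩
        rw [e]
        exact h2.union h4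
    · rintro W ⟨h1, h2⟩
      refine ⟨h2, ?_⟩
      rw [compl_compl]
      exact h1
    · intro p
      refine ⟨(hRcl _ (hEcl p)).isGδ, ?_⟩
      have e : R (E p)ᶜ = R univ ∩ (R (E p))ᶜ := by
        ext x
        constructor
        · rintro ⟨c, h5, h6⟩
          refine ⟨⟨c, h5, mem_univ _⟩, ?_⟩
          rintro ⟨d, h7, h8⟩
          have := huniq x c d h5 h7
          subst this
          exact h6 h8
        · rintro ⟨⟨c, h5, -⟩, h6⟩
          exact ⟨c, h5, fun h => h6 ⟨c, h5, h⟩⟩
      rw [e]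
      exact (hRcl _ isClosed_univ).isGδ.inter (hRcl _ (hEcl p)).isOpen_compl.isGδ
  let Y : Set K := {x | ∃ c, x ∈ T c ∧ ∀ m, x ∈ GG C (gpath E c m)}
  have hYG : IsGδ Y := by
    have e : Y = R univ ∩ ⋂ p : List ℕ, (R {c | gpath E c p.length = p}ᶜ ∪ GG C p) := by
      ext x
      simp only [mem_inter_iff, mem_iInter, mem_union]
      constructor
      · rintro ⟨c, h1, h2⟩
        refine ⟨⟨c, h1, mem_univ _⟩, fun p => ?_⟩
        by_cases h3 : gpath E c p.length = p
        · right
          have := h2 p.length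
          rw [h3] at this
          exact this
        · exact Or.inl ⟨c, h1, h3⟩
      · rintro ⟨⟨c, h1, -⟩, h2⟩
        refine ⟨c, h1, fun m => ?_⟩
        rcases h2 (gpath E c m) with ⟨d, h3, h4⟩ | h3
        · exfalso
          have := huniq x c d h1 h3
          subst this
          apply h4
          show gpath E c (gpath E c m).length = gpath E c m
          rw [gpath_length]
        · exact h3
    rw [e]
    exact (hRcl _ isClosed_univ).isGδ.inter
      (IsGδ.iInter fun p => (hRG p).2.union (GG_closed hCc p).isGδ)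
  have hYC : ∀ x c m, x ∈ GG C (gpath E c (m + 1)) →
      x ∈ C m (sInf {a | c ∈ E (a :: gpath E c m)}) := by
    intro x c m hx
    have h1 : x ∈ GG C (gpath E c m) ∩ C (gpath E c m).length
      (sInf {a | c ∈ E (a :: gpath E c m)}) := hx
    rw [gpath_length] at h1
    exact h1.2
  have hYX : Y ⊆ X := by
    rintro x ⟨c, -, h2⟩
    rw [hX, mem_iInter]
    intro m
    exact mem_iUnion.mpr ⟨_, (hYC x c m (h2 (m + 1))).1⟩
  have hYS : StronglyInfDim Y := by
    refine Q.sid_of_meets Y fun c => ?_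
    have hcl : ∀ m, IsClosed (T c ∩ GG C (gpath E c m)) := fun m =>
      (hTc c).inter (GG_closed hCc _)
    have hnon : ∀ m, (T c ∩ GG C (gpath E c m)).Nonempty := by
      intro m
      have h1 : Ess f (KP κ' (gpath E c m)) (T c ∩ GG C (gpath E c m)) := hEm c m
      obtain ⟨x, hx, -⟩ := h1 (fun i => {x | f (KP κ' (gpath E c m) i) x = 1 / 2})
        (fun i => par_level_PFS (hcont _) (by norm_num) (by norm_num))
      exact ⟨x, hx⟩
    obtain ⟨x, hx⟩ := IsCompact.nonempty_iInter_of_sequence_nonempty_isCompact_isClosed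
      (fun m => T c ∩ GG C (gpath E c m)) (fun m => by
        rintro x ⟨h1, h2⟩
        exact ⟨h1, h2.1⟩) hnon ((hcl 0).isCompact) hcl
    rw [mem_iInter] at hx
    exact ⟨x, ⟨c, (hx 0).1, fun m => (hx m).2⟩, (hx 0).1.2⟩
  have hYinj : ∀ x ∈ Y, ∀ y ∈ Y, g x = g y → x = y := by
    rintro x ⟨c, h1, h2⟩ y ⟨d, h3, h4⟩ hxy
    have hcd : c = d := jj_inj (h1.1.symm.trans (hxy.trans h3.1))
    subst hcd
    have h5 : ∀ m : ℕ, dist x y ≤ 1 / ((m : ℝ) + 1) := fun m =>
      hDd m _ x y (hYC x c m (h2 (m + 1))).2 (hYC y c m (h4 (m + 1))).2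
    have h6 : dist x y ≤ 0 := by
      refine ge_of_tendsto' (tendsto_one_div_add_atTop_nhds_zero_nat (𝕜 := ℝ)) h5
    exact dist_le_zero.mp h6
  have hYT : TotallyDisconnectedSpace Y := by
    have hcont' : Continuous fun z : Y => (⟨g z.1, by
        obtain ⟨c, hc, -⟩ := z.2
        exact ⟨c, hc.1.symm⟩⟩ : range jj) :=
      Continuous.subtype_mk (hgc.comp continuous_subtype_val) _
    refine td_of_injective hcont' ?_
    intro z w hzw
    have h1 : g z.1 = g w.1 := congrArg Subtype.val hzw
    exact Subtype.ext (hYinj _ z.2 _ w.2 h1)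
  obtain ⟨Y', h1, h2, h3, h4, h5⟩ := q1_of_sub hYG hYS (q1_of_td Y)
  exact ⟨Y', h1.trans hYX, h2, h3, h4, h5⟩

end Pool.Agent.Helper33.BQ
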